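import Mathlib

open Finset

namespace Pool.Agent.Results.MP_17ab9e_co.NonNormalPSMinus

/-- The vector space `F_2^n`. -/
abbrev Vec (n : ℕ) : Type := Fin n → ZMod 2

/-- `f` is normal: it is constant on some `k`-dimensional flat `c + V` of `F_2^(2k)`. -/
def IsNormal {k : ℕ} (f : Vec (2 * k) → ZMod 2) : Prop :=
  ∃ (V : Submodule (ZMod 2) (Vec (2 * k))) (c : Vec (2 * k)) (b : ZMod 2),
    Module.finrank (ZMod 2) V = k ∧ ∀ v ∈ V, f (c + v) = b

/-- `f` belongs to the class `PS^-` of partial spread functions of minus type in `2k` variables: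
there are `2^(k-1)` subspaces of dimension `k`, pairwise meeting only in `0`, such that
`f x = 1` exactly for the nonzero vectors in their union. -/
def IsPSMinus {k : ℕ} (f : Vec (2 * k) → ZMod 2) : Prop :=
  ∃ E : Fin (2 ^ (k - 1)) → Submodule (ZMod 2) (Vec (2 * k)),
    (∀ i, Module.finrank (ZMod 2) (E i) = k) ∧
    (∀ i j, i ≠ j → E i ⊓ E j = ⊥) ∧
    ∀ x, f x = 1 ↔ ∃ i, x ∈ E i ∧ x ≠ 0

/-! ### Signs and characters -/

/-- the sign of an element of `F_2` -/
def sg (a : ZMod 2) : ℤ := (-1 : ℤ) ^ a.val

lemma sg_zero : sg 0 = 1 := by decide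
lemma sg_one : sg 1 = -1 := by decide
lemma sg_add (a b : ZMod 2) : sg (a + b) = sg a * sg b := by
  revert a b; decide
lemma sg_mul_self (a : ZMod 2) : sg a * sg a = 1 := by
  revert a; decide
lemma sg_le (a : ZMod 2) : sg a ≤ 1 := by
  revert a; decide
lemma sg_eq_one {a : ZMod 2} : sg a = 1 ↔ a = 0 := by
  revert a; decide
lemma zmod2_cases (a : ZMod 2) : a = 0 ∨ a = 1 := by
  revert a; decide
lemma zmod2_add_self (a : ZMod 2) : a + a = 0 := by
  revert a; decide
lemma vec_add_self {n : ℕ} (x : Vec n) : x + x = 0 := by
  funext i; exact zmod2_add_self (x i)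

/-- inner product -/
def dot {n : ℕ} (x y : Vec n) : ZMod 2 := ∑ i, x i * y i

lemma dot_add_left {n : ℕ} (x y z : Vec n) : dot (x + y) z = dot x z + dot y z := by
  simp [dot, add_mul, Finset.sum_add_distrib]
lemma dot_add_right {n : ℕ} (x y z : Vec n) : dot x (y + z) = dot x y + dot x z := by
  simp [dot, mul_add, Finset.sum_add_distrib]
lemma dot_comm {n : ℕ} (x y : Vec n) : dot x y = dot y x := by
  simp [dot, mul_comm]
lemma dot_zero_left {n : ℕ} (x : Vec n) : dot 0 x = 0 := by simp [dot]
lemma dot_zero_right {n : ℕ} (x : Vec n) : dot x 0 = 0 := by simp [dot]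
lemma dot_smul_right {n : ℕ} (a : ZMod 2) (x y : Vec n) : dot x (a • y) = a * dot x y := by
  simp only [dot, Pi.smul_apply, smul_eq_mul, Finset.mul_sum]
  exact Finset.sum_congr rfl fun i _ => by ring

open Classical in
/-- character sum over a subspace -/
lemma sum_sub {n : ℕ} (V : Submodule (ZMod 2) (Vec n)) (u : Vec n) :
    ∑ v ∈ univ.filter (fun v => v ∈ V), sg (dot u v)
      = if ∀ v ∈ V, dot u v = 0 then ((univ.filter (fun v => v ∈ V)).card : ℤ) else 0 := by
  split_ifs with h
  · rw [Finset.sum_congr rfl (g := fun _ => (1 : ℤ))]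
    · simp
    · intro v hv
      rw [h v (by simpa using hv), sg_zero]
  · push Not at h
    obtain ⟨v0, hv0, hne⟩ := h
    have h1 : dot u v0 = 1 := by
      rcases zmod2_cases (dot u v0) with h | h
      · exact absurd h hne
      · exact h
    have key : ∑ v ∈ univ.filter (fun v => v ∈ V), sg (dot u v)
        = ∑ v ∈ univ.filter (fun v => v ∈ V), - sg (dot u v) := by
      apply Finset.sum_bij' (fun v _ => v + v0) (fun v _ => v + v0)
      · intro v hv
        simp only [mem_filter, mem_univ, true_and] at hv ⊢
        exact V.add_mem hv hv0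
      · intro v hv
        simp only [mem_filter, mem_univ, true_and] at hv ⊢
        exact V.add_mem hv hv0
      · intro v _
        rw [add_assoc, vec_add_self, add_zero]
      · intro v _
        rw [add_assoc, vec_add_self, add_zero]
      · intro v _
        rw [dot_add_right, h1, sg_add, sg_one]; ring
    rw [Finset.sum_neg_distrib] at key
    omega

/-- orthogonal complement -/
def perp {n : ℕ} (V : Submodule (ZMod 2) (Vec n)) : Submodule (ZMod 2) (Vec n) where
  carrier := {u | ∀ v ∈ V, dot u v = 0}
  add_mem' := by
    intro a b ha hb v hv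
    rw [dot_add_left, ha v hv, hb v hv, add_zero]
  zero_mem' := by
    intro v _
    exact dot_zero_left v
  smul_mem' := by
    intro c x hx v hv
    rw [dot_comm, dot_smul_right, dot_comm, hx v hv, mul_zero]

lemma mem_perp {n : ℕ} {V : Submodule (ZMod 2) (Vec n)} {u : Vec n} :
    u ∈ perp V ↔ ∀ v ∈ V, dot u v = 0 := Iff.rfl

open Classical in
/-- number of elements of a subspace -/
noncomputable def cnt {n : ℕ} (V : Submodule (ZMod 2) (Vec n)) : ℤ :=
  ((univ.filter (fun v => v ∈ V)).card : ℤ)

open Classical in
lemma sum_sub' {n : ℕ} (V : Submodule (ZMod 2) (Vec n)) (u : Vec n) :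
    ∑ v ∈ univ.filter (fun v => v ∈ V), sg (dot u v) = if u ∈ perp V then cnt V else 0 := by
  rw [sum_sub]
  by_cases h : u ∈ perp V
  · rw [if_pos h, if_pos (mem_perp.mp h)]; rfl
  · rw [if_neg h, if_neg (fun h' => h (mem_perp.mpr h'))]

open Classical in
lemma sum_all {n : ℕ} (u : Vec n) :
    ∑ v : Vec n, sg (dot u v) = if u = 0 then 2 ^ n else 0 := by
  have h := sum_sub (⊤ : Submodule (ZMod 2) (Vec n)) u
  simp only [Submodule.mem_top, filter_true, forall_const, card_univ] at h
  rw [h]
  by_cases hu : u = 0
  · subst hu
    simp [dot_zero_left]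
  · have : ¬ ∀ v : Vec n, dot u v = 0 := by
      intro hall
      apply hu
      funext i
      have := hall (Pi.single i 1)
      simpa [dot, Pi.single_apply] using this
    simp [hu, this]

open Classical in
lemma cnt_mul_cnt {n : ℕ} (V : Submodule (ZMod 2) (Vec n)) : cnt V * cnt (perp V) = 2 ^ n := by
  have h1 : ∑ u : Vec n, ∑ v ∈ univ.filter (fun v => v ∈ V), sg (dot u v)
      = cnt V * cnt (perp V) := by
    simp_rw [sum_sub']
    rw [Finset.sum_ite, Finset.sum_const_zero, add_zero, Finset.sum_const, cnt, cnt, nsmul_eq_mul]
    ring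
  have h2 : ∑ u : Vec n, ∑ v ∈ univ.filter (fun v => v ∈ V), sg (dot u v) = 2 ^ n := by
    rw [Finset.sum_comm]
    have : ∀ v ∈ univ.filter (fun v => v ∈ V), ∑ u : Vec n, sg (dot u v)
        = if v = 0 then (2 : ℤ) ^ n else 0 := by
      intro v _
      rw [← sum_all v]
      exact Finset.sum_congr rfl fun u _ => by rw [dot_comm]
    rw [Finset.sum_congr rfl this]
    simp
  rw [← h1, h2]

lemma cnt_pos {n : ℕ} (V : Submodule (ZMod 2) (Vec n)) : 0 < cnt V := by
  classical
  unfold cnt
  have : 0 < (univ.filter (fun v => v ∈ V)).card :=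
    Finset.card_pos.mpr ⟨0, by simp⟩
  exact_mod_cast this

open Classical in
lemma perp_perp {n : ℕ} (V : Submodule (ZMod 2) (Vec n)) (x : Vec n) :
    x ∈ perp (perp V) ↔ x ∈ V := by
  have hsub : univ.filter (fun v => v ∈ V) ⊆ univ.filter (fun v => v ∈ perp (perp V)) := by
    intro v hv
    simp only [mem_filter, mem_univ, true_and] at hv ⊢
    intro u hu
    rw [dot_comm]
    exact hu v hv
  have h1 := cnt_mul_cnt V
  have h2 := cnt_mul_cnt (perp V)
  have hp := cnt_pos (perp V)
  have hc : cnt V = cnt (perp (perp V)) := by
    have : cnt (perp V) * cnt V = cnt (perp V) * cnt (perp (perp V)) := by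
      rw [h2, mul_comm, h1]
    exact mul_left_cancel₀ hp.ne' this
  have heq := Finset.eq_of_subset_of_card_le hsub (by unfold cnt at hc; exact_mod_cast hc.ge)
  have := Finset.ext_iff.mp heq x
  simpa using this.symm

open Classical in
lemma cnt_eq_of_finrank {n k : ℕ} (V : Submodule (ZMod 2) (Vec n))
    (h : Module.finrank (ZMod 2) V = k) : cnt V = 2 ^ k := by
  have h1 : Fintype.card V = 2 ^ k := by
    rw [Module.card_eq_pow_finrank (K := ZMod 2) (V := V), h, ZMod.card]
  unfold cnt
  rw [← Fintype.card_subtype]
  have : Fintype.card {x // x ∈ V} = Fintype.card V := by congr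
  rw [this, h1]
  push_cast
  rfl

/-- Walsh transform -/
noncomputable def walsh {n : ℕ} (f : Vec n → ZMod 2) (u : Vec n) : ℤ := ∑ x, sg (f x) * sg (dot u x)

open Classical in
/-- Poisson summation for a function constant on the flat `c + V`. -/
lemma poisson {n : ℕ} (f : Vec n → ZMod 2) (V : Submodule (ZMod 2) (Vec n)) (c : Vec n)
    (b : ZMod 2) (hf : ∀ v ∈ V, f (c + v) = b) :
    ∑ u ∈ univ.filter (fun u => u ∈ perp V), sg (dot c u) * walsh f u = 2 ^ n * sg b := by
  have h1 : ∑ u ∈ univ.filter (fun u => u ∈ perp V), sg (dot c u) * walsh f u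
      = ∑ x : Vec n, sg (f x) * (if c + x ∈ V then cnt (perp V) else 0) := by
    unfold walsh
    simp_rw [Finset.mul_sum]
    rw [Finset.sum_comm]
    refine Finset.sum_congr rfl fun x _ => ?_
    have : (if c + x ∈ V then cnt (perp V) else 0)
        = ∑ u ∈ univ.filter (fun u => u ∈ perp V), sg (dot (c + x) u) := by
      rw [sum_sub']
      simp only [perp_perp]
    rw [this, Finset.mul_sum]
    refine Finset.sum_congr rfl fun u _ => ?_
    rw [dot_add_left, sg_add, dot_comm u x]
    ring
  rw [h1]
  have h2 : ∀ x : Vec n, sg (f x) * (if c + x ∈ V then cnt (perp V) else 0)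
      = if c + x ∈ V then cnt (perp V) * sg b else 0 := by
    intro x
    split_ifs with h
    · have := hf (c + x) h
      rw [← add_assoc, vec_add_self, zero_add] at this
      rw [this, mul_comm]
    · ring
  simp_rw [h2]
  rw [Finset.sum_ite, Finset.sum_const_zero, add_zero, Finset.sum_const, nsmul_eq_mul]
  have h3 : ((univ.filter (fun x : Vec n => c + x ∈ V)).card : ℤ) = cnt V := by
    unfold cnt
    congr 1
    apply Finset.card_bij' (fun x _ => c + x) (fun x _ => c + x)
    · intro x hx; simpa using hx
    · intro x hx
      simp only [mem_filter, mem_univ, true_and] at hx ⊢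
      rw [← add_assoc, vec_add_self, zero_add]; exact hx
    · intro x _; rw [← add_assoc, vec_add_self, zero_add]
    · intro x _; rw [← add_assoc, vec_add_self, zero_add]
  rw [h3, ← mul_assoc, cnt_mul_cnt]

/-- If `f` is constant on the `k`-flat `c + V` and all Walsh values are at most `2^k` in absolute
value, then the Walsh transform on `V^⊥` is determined. -/
lemma walsh_on_perp {k : ℕ} (f : Vec (2 * k) → ZMod 2) (hb : ∀ u, |walsh f u| ≤ 2 ^ k)
    (V : Submodule (ZMod 2) (Vec (2 * k))) (hV : Module.finrank (ZMod 2) V = k)
    (c : Vec (2 * k)) (b : ZMod 2) (hf : ∀ v ∈ V, f (c + v) = b) :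
    ∀ u ∈ perp V, walsh f u = 2 ^ k * (sg b * sg (dot c u)) := by
  classical
  have hcV : cnt V = 2 ^ k := cnt_eq_of_finrank V hV
  have hcP : cnt (perp V) = 2 ^ k := by
    have h2 : (2 : ℤ) ^ (2 * k) = 2 ^ k * 2 ^ k := by rw [two_mul, pow_add]
    have := cnt_mul_cnt V
    rw [hcV, h2] at this
    exact mul_left_cancel₀ (by positivity) this
  have hP := poisson f V c b hf
  have hsum : ∑ u ∈ univ.filter (fun u => u ∈ perp V),
      (2 ^ k - sg b * (sg (dot c u) * walsh f u)) = 0 := by
    rw [Finset.sum_sub_distrib, ← Finset.mul_sum, hP, Finset.sum_const, nsmul_eq_mul]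
    change cnt (perp V) * 2 ^ k - sg b * (2 ^ (2 * k) * sg b) = 0
    rw [hcP]
    have := sg_mul_self b
    calc (2 : ℤ) ^ k * 2 ^ k - sg b * (2 ^ (2 * k) * sg b)
        = 2 ^ k * 2 ^ k - 2 ^ (2 * k) * (sg b * sg b) := by ring
      _ = 0 := by rw [this, two_mul, pow_add]; ring
  have hsg : ∀ a : ZMod 2, |sg a| = 1 := by decide
  have hnn : ∀ u ∈ univ.filter (fun u => u ∈ perp V),
      0 ≤ 2 ^ k - sg b * (sg (dot c u) * walsh f u) := by
    intro u _
    have h1 : |sg b * (sg (dot c u) * walsh f u)| ≤ 2 ^ k := by
      rw [abs_mul, abs_mul, hsg, hsg, one_mul, one_mul]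
      exact hb u
    have := le_abs_self (sg b * (sg (dot c u) * walsh f u))
    linarith
  have hall := (Finset.sum_eq_zero_iff_of_nonneg hnn).mp hsum
  intro u hu
  have := hall u (by simpa using hu)
  have h2 : sg b * (sg (dot c u) * walsh f u) = 2 ^ k := by linarith
  calc walsh f u = (sg b * sg b) * (sg (dot c u) * sg (dot c u)) * walsh f u := by
        rw [sg_mul_self, sg_mul_self]; ring
    _ = (sg b * (sg (dot c u) * walsh f u)) * (sg b * sg (dot c u)) := by ring
    _ = _ := by rw [h2]

open Classical in
/-- The Walsh transform of a `PS^-` function. -/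
lemma walsh_ps {k : ℕ} (hk : 1 ≤ k) (f : Vec (2 * k) → ZMod 2)
    (E : Fin (2 ^ (k - 1)) → Submodule (ZMod 2) (Vec (2 * k)))
    (hE : ∀ i, Module.finrank (ZMod 2) (E i) = k) (hij : ∀ i j, i ≠ j → E i ⊓ E j = ⊥)
    (hf : ∀ x, f x = 1 ↔ ∃ i, x ∈ E i ∧ x ≠ 0) (u : Vec (2 * k)) :
    walsh f u = (if u = 0 then 2 ^ (2 * k) else 0)
      - 2 ^ (k + 1) * ((univ.filter (fun i => u ∈ perp (E i))).card : ℤ) + 2 ^ k := by
  have hsgf : ∀ x, sg (f x) = 1 - 2 * (∑ i, (if x ∈ E i then (1 : ℤ) else 0))
      + 2 ^ k * (if x = 0 then 1 else 0) := by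
    intro x
    by_cases hx : x = 0
    · subst hx
      have h0 : f 0 = 0 := by
        rcases zmod2_cases (f 0) with h | h
        · exact h
        · obtain ⟨i, _, hne⟩ := (hf 0).mp h
          exact absurd rfl hne
      rw [h0, sg_zero]
      simp only [Submodule.zero_mem, if_true, sum_const, card_univ, Fintype.card_fin, nsmul_eq_mul,
        mul_one]
      push_cast
      have : (2 : ℤ) ^ k = 2 * 2 ^ (k - 1) := by
        rw [← pow_succ']; congr 1; omega
      rw [this]; ring
    · rw [if_neg hx, mul_zero, add_zero]
      by_cases h : ∃ i, x ∈ E i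
      · obtain ⟨i, hi⟩ := h
        rw [(hf x).mpr ⟨i, hi, hx⟩, sg_one]
        rw [Finset.sum_eq_single i]
        · simp [hi]
        · intro j _ hj
          rw [if_neg]
          intro hxj
          have : x ∈ E i ⊓ E j := ⟨hi, hxj⟩
          rw [hij i j (Ne.symm hj)] at this
          exact hx (by simpa using this)
        · simp
      · have h0 : f x = 0 := by
          rcases zmod2_cases (f x) with h' | h'
          · exact h'
          · obtain ⟨i, hi, _⟩ := (hf x).mp h'
            exact absurd ⟨i, hi⟩ h
        rw [h0, sg_zero]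
        push Not at h
        simp [h]
  unfold walsh
  have h1 : ∀ x : Vec (2 * k), sg (f x) * sg (dot u x)
      = sg (dot u x) - 2 * (∑ i, (if x ∈ E i then sg (dot u x) else 0))
        + 2 ^ k * (if x = 0 then sg (dot u x) else 0) := by
    intro x
    rw [hsgf x]
    have : ∑ i, (if x ∈ E i then sg (dot u x) else 0)
        = (∑ i, (if x ∈ E i then (1 : ℤ) else 0)) * sg (dot u x) := by
      rw [Finset.sum_mul]
      exact Finset.sum_congr rfl fun i _ => by split_ifs <;> simp
    rw [this]
    split_ifs <;> ring
  simp_rw [h1]
  rw [Finset.sum_add_distrib, Finset.sum_sub_distrib, sum_all, ← Finset.mul_sum, ← Finset.mul_sum,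
    Finset.sum_comm]
  have h2 : ∀ i, ∑ x : Vec (2 * k), (if x ∈ E i then sg (dot u x) else 0)
      = if u ∈ perp (E i) then 2 ^ k else 0 := by
    intro i
    rw [← Finset.sum_filter, sum_sub', cnt_eq_of_finrank _ (hE i)]
  simp_rw [h2]
  rw [← Finset.sum_filter, Finset.sum_const, nsmul_eq_mul]
  have h3 : ∑ x : Vec (2 * k), (if x = 0 then sg (dot u x) else 0) = 1 := by
    simp [dot_zero_right, sg_zero]
  rw [h3, pow_succ]
  ring

/-- Two complementary `k`-dimensional subspaces of `F_2^(2k)` have orthogonal complements meeting
only in `0`. -/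
lemma perp_inter {k : ℕ} (A B : Submodule (ZMod 2) (Vec (2 * k)))
    (hA : Module.finrank (ZMod 2) A = k) (hB : Module.finrank (ZMod 2) B = k)
    (hAB : A ⊓ B = ⊥) (u : Vec (2 * k)) (h1 : u ∈ perp A) (h2 : u ∈ perp B) : u = 0 := by
  have htop : A ⊔ B = ⊤ := by
    apply Submodule.eq_top_of_finrank_eq
    have := Submodule.finrank_sup_add_finrank_inf_eq A B
    rw [hAB, finrank_bot, hA, hB] at this
    rw [Module.finrank_pi, Fintype.card_fin]
    omega
  funext i
  have hmem : (Pi.single i 1 : Vec (2 * k)) ∈ A ⊔ B := by rw [htop]; trivial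
  obtain ⟨a, ha, b, hb, hab⟩ := Submodule.mem_sup.mp hmem
  have : dot u (Pi.single i 1) = 0 := by
    rw [← hab, dot_add_right, h1 a ha, h2 b hb, add_zero]
  simpa [dot, Pi.single_apply] using this

/-- Main structural lemma: if a `PS^-` function is constant on a `k`-flat `c + V`, then on
`V^⊥` the dual partial spread indicator is the linear function `⟨c, ·⟩`. -/
lemma dual_linear {k : ℕ} (hk : 1 ≤ k) (f : Vec (2 * k) → ZMod 2)
    (E : Fin (2 ^ (k - 1)) → Submodule (ZMod 2) (Vec (2 * k)))
    (hE : ∀ i, Module.finrank (ZMod 2) (E i) = k) (hij : ∀ i j, i ≠ j → E i ⊓ E j = ⊥)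
    (hf : ∀ x, f x = 1 ↔ ∃ i, x ∈ E i ∧ x ≠ 0)
    (V : Submodule (ZMod 2) (Vec (2 * k))) (hV : Module.finrank (ZMod 2) V = k)
    (c : Vec (2 * k)) (b : ZMod 2) (hc : ∀ v ∈ V, f (c + v) = b) :
    ∀ u ∈ perp V, u ≠ 0 → ((∃ i, u ∈ perp (E i)) ↔ dot c u = 1) := by
  classical
  have hw := walsh_ps hk f E hE hij hf
  have hcard : ∀ u : Vec (2 * k), u ≠ 0 →
      ((univ.filter (fun i => u ∈ perp (E i))).card : ℤ) = if ∃ i, u ∈ perp (E i) then 1 else 0 := by
    intro u hu
    split_ifs with h
    · obtain ⟨i, hi⟩ := h
      have : univ.filter (fun i => u ∈ perp (E i)) = {i} := by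
        ext j
        simp only [mem_filter, mem_univ, true_and, mem_singleton]
        constructor
        · intro hj
          by_contra hne
          exact hu (perp_inter (E j) (E i) (hE j) (hE i) (hij j i hne) u hj hi)
        · rintro rfl; exact hi
      rw [this]; simp
    · push Not at h
      simp [h]
  have hw0 : walsh f 0 = 2 ^ k := by
    rw [hw 0, if_pos rfl]
    have : univ.filter (fun i => (0 : Vec (2 * k)) ∈ perp (E i)) = univ := by
      ext i; simp
    rw [this, card_univ, Fintype.card_fin]
    push_cast
    rw [← pow_add, show k + 1 + (k - 1) = 2 * k by omega]; ring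
  have hw1 : ∀ u : Vec (2 * k), u ≠ 0 → walsh f u
      = if ∃ i, u ∈ perp (E i) then - 2 ^ k else 2 ^ k := by
    intro u hu
    rw [hw u, if_neg hu, hcard u hu]
    split_ifs
    · rw [pow_succ]; ring
    · ring
  have hbd : ∀ u, |walsh f u| ≤ 2 ^ k := by
    intro u
    have hp : (0 : ℤ) ≤ 2 ^ k := by positivity
    by_cases hu : u = 0
    · rw [hu, hw0, abs_of_nonneg hp]
    · rw [hw1 u hu]
      split_ifs
      · rw [abs_neg, abs_of_nonneg hp]
      · rw [abs_of_nonneg hp]
  have hmain := walsh_on_perp f hbd V hV c b hc
  have hkpos : (0 : ℤ) < 2 ^ k := by positivity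
  have hb0 : sg b = 1 := by
    have := hmain 0 (Submodule.zero_mem _)
    rw [hw0, dot_zero_right, sg_zero, mul_one] at this
    have h2 : (2 : ℤ) ^ k * 1 = 2 ^ k * sg b := by rw [mul_one]; exact this
    exact (mul_left_cancel₀ hkpos.ne' h2).symm
  intro u hu hne
  have h1 := hmain u hu
  rw [hb0, one_mul, hw1 u hne] at h1
  constructor
  · intro hex
    rw [if_pos hex] at h1
    rcases zmod2_cases (dot c u) with h | h
    · rw [h, sg_zero] at h1
      linarith
    · exact h
  · intro hdc
    by_contra hex
    rw [if_neg hex, hdc, sg_one] at h1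
    linarith

/-- bit masks of the sixteen subspaces -/
def emList : List ℕ :=
  [41855804977958881238216860293671333616475814839523861211015363775367857790754367812411590743534994955327154331653972084008334635948471552329445020986934924815945052132199177846429263578652254701150892687317891618273230805205109921907778604060552511649183701335864607145965996450848344889395800702977,
   4294967295,
   89884656753579746629736815597155012919053819629231300169974335991435450977486621650048908736992967772721990730446448769367134891609248586294102283987248318133409806745129229874119254163662133418774586415890932689074208702293128176862083988238658039439619087220031745900668614540680756795837844127798509174785,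
   669856378729574754646499945483955826799437747015369810248582111595991430521149521009763128620510786186536090603815378531449491775468506328151930419256516339335390533041185921945034886762474992934279528724639659560411337381019236779628959415286386983968673288596693184730627998562672734644180923449345,
   11235582092889634090533217623398032655768572883373684516832921491027907519112659347229149975334267494952774209782780689221372120226283624406686275250226874347921596909991517777633148606777182737471900664244972794647812732564664285857248219362829970692327310746297601106876556301055010357009795231114638393345,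
   171441377154792372126165673362943145312210985281365878880640386152428235323462709042816396200420144527674148115087919001182952494125766531902541031859674320000489351665718816913876934286097965321783859106614324178789836157908360788070715919902596966136933055806442029034838245499001511716910523580678145,
   2808895523222378585038103942421167273554411810397080530563222610511997092563314139508449024176729949441103728117926333916444619936194547825900843857860668514371522314124067209914054138535258632973627555379813347214074873880250030326632026513096730808601524832578800625533565651317482523038913158357664661505,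
   44942328376789873314261704899852096133943432858578363580153638988807265661187144744299675560518348115134213398180402632208960454093298195483799249971632047170353259408055023625331793262728507687357322973505778953168186377437972923884638092857684248140783615901591934637033647721567878367385519359500688031745,
   87777985100718977335190617667828472036353154669160497137143938943982904150367108526762775398785199314428773634146248920107704914495244831991080261646520033593702782535388878462810620728528626063284683523651578032267673162980512154847492057292087493058061435547106479343592240066673506081845296816816390145,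
   85741616477385492459558886168268485541465007180607379331449403039379595493301942591841729333498783514975738074904209980339386758944324472249099630114351195348278184458486062652194489701303924395037769865398803131707166335816869066956446702265483583378934908378206337701482249008198109390765669528633345,
   5357543674600540196915321227474564740959455065132221221425032071555176175980583599703995806324104622997573674922904424718640331808961629039673278210631985936567685080934457711941984503857254606196710732468412873448221750454015099499902279596674797847800201084780944277268711318273455805337617085497345,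
   1342001746793347501460529748642455147575217525975161649299719863693024942021421175317226743643859593400587213822825878593512573514125211846138921122111061502090918488361731783117978146751449114697934805565434320793206286127745953318230610473376548060491194813571639880492622778844659153381889927020545,
   167750218349168437429571821630004282199576092301135126631273146680355896895816560049916415134004520498398217012560256987382547354053048065693239748102259439393782531911840611400282653258002986071411193575366377589480274866298153827466603771762411129718352529974938830389352481446770393391718008356865,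
   83711649858105982149192078114685167439216412942560551215710102208546945433067093804510699434885905755143711558186668238312607715715910092040368052090221394033030236246159434226439181371855252174942461479932723158874070036595042188441233470811380440016357272448603844920255808942090628914675548422145,
   21944496275175066583072118881304300921176391215424211769726636968886618757613156383509776417625104480767624238682532168724351333941746765183802595500044380847736160900243482501305930460846772614587371117277884084924988442753481618035225766852258072153958254214446902648410648592632778825710510731840978945,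
   43888992555458860658474960438694501567854308487080962143422613902694328168113218123986052649840156926533886846011456171459260315530910996747188546866480821444415914337245946512996495310691778850542703990878041055006512960867657840235272469662748771564374223502214859681654848839740526561142014214714425345]

/-- bit masks of their orthogonal complements -/
def dmList : List ℕ :=
  [4294967295,
   41855804977958881238216860293671333616475814839523861211015363775367857790754367812411590743534994955327154331653972084008334635948471552329445020986934924815945052132199177846429263578652254701150892687317891618273230805205109921907778604060552511649183701335864607145965996450848344889395800702977,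
   89884656753579746629736815597155012919053819629231300169974335991435450977486621650048908736992967772721990730446448769367134891609248586294102283987248318133409806745129229874119254163662133418774586415890932689074208702293128176862083988238658039439619087220031745900668614540680756795837844127798509174785,
   669856378729574161001469613377353695510974111493670902194838889992878343319563647761369125867275966788336626715327986165263396140694586932576461838183043738320063749257250703499884541180564892576288347886465134416879540328566161540320752508615672096688188635207969095344816250743232563413021511122945,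
   42860344287470188224414476341400050979055576101928398704977576664660091283578583657788050688001293958001432081715101324849629360881936638723144772931988123226112142933867494067439763851613029056109036790993450216052852418383049498607141798254993758171434162128224153506849474106974851695039340708102145,
   43888997782325130493933006640214831349069214480862813905225245872604183165581389689424778545321209075825361833838585093208689516360972543883726045667631315421435274320428691508402041491448042551282877397027835999072933166622659851444648419632835809278261837107253916263992793303277306994486810860106809345,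
   2808895523222388564839216833518471980318168511107160789246073946892345728590577257500298316070232142371911464083242832193447973358881426704061940994560825090521578756482650780009477808295249368534279871592671171109244180791497258825893357315632323108378975098443181902052335263042789842006527150536989343745,
   167423221120254464680855233008549492668234545580193589327842933850868199952296083231113007828285617958735013345023529970618211588212767606041813158847488182702191004870238522490927325442821526297721009301531715880275472955650411957212714434675674323797789908995991891516394424326747120091092404404225,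
   22471164185778958825817862631070253425596614684258274646413272024091531445105038884232523109950554405463239084835533924973092396779830236319508885997539540347863389718278505986882154914680449537823150653011198822013368085656324178657837111101503426690229842474905549514130889984315078920004902621534281007105,
   1371531017198500285596606693130258640219748224526490455758005381855163806141940552529514403175179434990002767772879687037389521070553416148317189958728509689621944888379787062143742756472025177400908860640055445019452067409144490458729574340116639044288179096104793098049938966385083776030171949195853825,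
   5357543038426441532723381813798834341046798644963085802822296826029665983639195483660651747718322020149161828923366809575400739894115522779275072996724172373176785321245373002256051898702738052122527773948215993712015802160418173304051760381224756351282181035155013185880528662298568937327257236537345,
   83793359555505825274271999796321796973100222689174526508583748610401960778091613857759125702796061111887721773433561470628806678720374406606662882926551388492807923462330579566095893660287059530465834331075918896911440837887852573037406421392801210529867417577429779557925472874431629230029399916545,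
   85720688654734998057843662379584765102396317161768068875271079075037964619566796135544659810569960069159401121830494934816754521891677279616200965685384213578969930044317278848262402572120791358890202075133147493457338492930947511520112552492965248833570372919454499189003008601459618254406859194630145,
   334846599412935679801039051416889565122436727750038662024600567823681976673599243307628958544979713406445564066052209560135717702346942242767907125094406905946783242854375274259303057442350828442513795657052881110152120310412394030900956615848378462364057753901938680647270159574786462850635838521345,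
   342882756854281138907973749649591469296609623319093538835246614546299242955128103038239959508606845280485799170459462241004031067925366183120410243412351481633239272130640659362068780186727042682157285633956357561845945394281221469475873900017932849793657265693307512100044185312685459499864525891436545,
   10972248178462186924816750673889533390098620697156298356056207933771105396430767470804834337123267199308516363667271819671836918086610337666941512590941998532051656660276499635892601082842459983722747716681880395772855775274161280979617111497415411831160751597502846403847533528612058875955250744895995905]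

/-- bit mask of the nonzero vectors in the union of the orthogonal complements -/
def uMask : ℕ :=
  115221427358667278547093976376873915216253593407535931314044481006056174683713572316477760493902937559560947176856787423050162674173635724634139075080911037881853835871680874266416862961607185321122134301661306348651493200394168573327280382320883888808073370534250532032989766043405887396040253245586258526206

/-- positions below 1024 whose bit 0 is zero -/
def mk0 : ℕ := 59923104495410530257643506359634157787265899298076885757810027052577558601833654377569492440802512007040037959957131119219596589604805540830949143546491374792589297808288495092100739867082031373151027650695001922946050227447487627157971036846942412387783503561528766079982415312826572101611785443208074712405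

/-- positions below 1024 whose bit 1 is zero -/
def mk1 : ℕ := 35953862697246318154586103815780494672359539578846131454686016231546535161100192626541695464481507204224022775974278671531757953762883324498569486127894824875553578684973097055260443920249218823890616590417001153767630136468492576294782622108165447432670102136917259647989449187695943260967071265924844827443

/-- positions below 1024 whose bit 2 is zero -/
def mk2 : ℕ := 10574665499190093574878265828170733727164570464366509251378240068101922106205939007806381018965149177712947875286552550450517045224377448381932201802322007316339287848521499133900130564779182007026651938357941515814008863667203698910230182972989837480197088863799194014114543878734100959107962137036719066895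

/-- positions below 1024 whose bit 3 is zero -/
def mk3 : ℕ := 699491492164325255925799685131916238761858746670158199507510043415302240488330595847114697752558505918755306925569623959761827894219519931878783776807292312753960674804924067222965835024303868169078143782431929061627045456585458682777872025450689638767900819784382483423919244896808234649164810621105930495

/-- positions below 1024 whose bit 4 is zero -/
def mk4 : ℕ := 2743020179230535281946541939345750848555742525508196244463891865018732560317087494586393599377565894397365059124943060525486210366883083181910179450378780297812958991483673120165741788626975511839923752263378027203536180819116878732226270817108308850929253867045887029310881577406346282326553799069597695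

/-- positions below 1024 whose bit 5 is zero -/
def mk5 : ℕ := 41855804958468253215416862131907979778454107725009450118155365586182407620204276291770907358880301160328046586258184810029483623519757063820280685745923183539846145986816692000600865017772938381340388341514537443249396336985068988168808660090905282896115730467361995897392102061092763730264872452095

/-- positions below 1024 whose bit 6 is zero -/
def mk6 : ℕ := 9745314011399999079825087856739523064552525976596965881551925397018201298194122315297074087275581256833590487601395744005744951780045343217449061696331431509203394542567385587901876228620663761300800549174547043425925390537456083938846363324592488964804017437595582105683670264434074320895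

/-- positions below 1024 whose bit 7 is zero -/
def mk7 : ℕ := 528294531135665246352339784916516606517294807943820813192811729538211400001472535897918181471736777028254044331895631613250787768007518677792952317086889741124906620767309129894662251090542585738100845990744019557890744873615362666431441255911497635040213580733791338495

/-- positions below 1024 whose bit 8 is zero -/
def mk8 : ℕ := 1552518092300708935148979488462502555256886017116696611139052038026050952686363478522948466231546903925489524851003593840350987650737090830000565511011107708019742339038878425693560262461319812044393910951468561638530421117939613695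

/-- positions below 1024 whose bit 9 is zero -/
def mk9 : ℕ := 13407807929942597099574024998205846127479365820592393377723561443721764030073546976801874298166903427690031858186486050853753882811946569946433649006084095

/-- bit mask of the complement of `uMask` in the positions below 1024 -/
def zMask : ℕ := Nat.xor 179769313486231590772930519078902473361797697894230657273430081157732675805500963132708477322407536021120113879871393357658789768814416622492847430639474124377767893424865485276302219601246094119453082952085005768838150682342462881473913110540827237163350510684586298239947245938479716304835356329624224137215 uMask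

/-! ### Bit masks: translations and searches

The functions below use the binary natural number operations directly, because they are evaluated
by the kernel. -/

/-- translation of a mask by `s = 2^b`, where `m` is the mask of the positions with bit `b` zero -/
def swp (s m S : ℕ) : ℕ :=
  Nat.lor (Nat.shiftLeft (Nat.land S m) s) (Nat.land (Nat.shiftRight S s) m)

/-- conditional translation: `S` is translated by `s = 2^b` if bit `b` of `v` is set -/
noncomputable def cs (v b s m S : ℕ) : ℕ :=
  Bool.rec S (swp s m S) (Nat.beq (Nat.land (Nat.shiftRight v b) 1) 1)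

/-- translation of a mask by `v < 1024` -/
noncomputable def tr (S v : ℕ) : ℕ :=
  cs v 9 512 mk9 (cs v 8 256 mk8 (cs v 7 128 mk7 (cs v 6 64 mk6 (cs v 5 32 mk5 (cs v 4 16 mk4
  (cs v 3 8 mk3 (cs v 2 4 mk2 (cs v 1 2 mk1 (cs v 0 1 mk0 S)))))))))

/-- a mask intersected with its translate -/
noncomputable def st (S w : ℕ) : ℕ := Nat.land S (tr S w)

/-- the list of the masks `mk0, ..., mk9` -/
def mkl (l : ℕ) : ℕ := [mk0, mk1, mk2, mk3, mk4, mk5, mk6, mk7, mk8, mk9].getD l 0

/-- `p (base + x)` for all set bits `x < 2^lev` of `S` -/
noncomputable def allB (p : ℕ → Bool) (lev : ℕ) : ℕ → ℕ → Bool :=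
  Nat.rec (fun base S => Bool.rec (p base) true (Nat.beq S 0))
    (fun l ih base S => Bool.rec
      (Bool.rec false (ih (Nat.add base (Nat.pow 2 l)) (Nat.shiftRight S (Nat.pow 2 l)))
        (ih base (Nat.mod S (Nat.pow 2 (Nat.pow 2 l)))))
      true (Nat.beq S 0)) lev

lemma allB_spec (p : ℕ → Bool) : ∀ (lev base S : ℕ), allB p lev base S = true →
    ∀ x < 2 ^ lev, S.testBit x = true → p (base + x) = true := by
  intro lev
  induction lev with
  | zero =>
    intro base S h x hx hS
    have hx0 : x = 0 := by simpa using hx
    subst hx0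
    have hS0 : Nat.beq S 0 = false := by
      cases hh : Nat.beq S 0
      · rfl
      · have := Nat.eq_of_beq_eq_true hh
        subst this
        simp at hS
    have h' : (Bool.rec (p base) true (Nat.beq S 0) : Bool) = true := h
    rw [hS0] at h'
    exact h'
  | succ l ih =>
    intro base S h x hx hS
    have hS0 : Nat.beq S 0 = false := by
      cases hh : Nat.beq S 0
      · rfl
      · have := Nat.eq_of_beq_eq_true hh
        subst this
        simp at hS
    have h' : (Bool.rec
      (Bool.rec false (allB p l (Nat.add base (Nat.pow 2 l)) (Nat.shiftRight S (Nat.pow 2 l)))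
        (allB p l base (Nat.mod S (Nat.pow 2 (Nat.pow 2 l)))) : Bool)
      true (Nat.beq S 0) : Bool) = true := h
    rw [hS0] at h'
    have h'' : (Bool.rec false (allB p l (Nat.add base (Nat.pow 2 l)) (Nat.shiftRight S (Nat.pow 2 l)))
        (allB p l base (Nat.mod S (Nat.pow 2 (Nat.pow 2 l)))) : Bool) = true := h'
    have h1 : allB p l base (Nat.mod S (Nat.pow 2 (Nat.pow 2 l))) = true := by
      cases hh : allB p l base (Nat.mod S (Nat.pow 2 (Nat.pow 2 l)))
      · rw [hh] at h''
        exact Bool.noConfusion (show false = true from h'')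
      · rfl
    rw [h1] at h''
    have h2 : allB p l (Nat.add base (Nat.pow 2 l)) (Nat.shiftRight S (Nat.pow 2 l)) = true := h''
    by_cases hxl : x < 2 ^ l
    · apply ih base _ h1 x hxl
      change (S % 2 ^ (2 ^ l)).testBit x = true
      rw [Nat.testBit_mod_two_pow, hS]
      simp [hxl]
    · push Not at hxl
      have e : base + x = base + 2 ^ l + (x - 2 ^ l) := by omega
      rw [e]
      apply ih _ _ h2 (x - 2 ^ l)
      · rw [pow_succ] at hx; omega
      · change (S >>> (2 ^ l)).testBit (x - 2 ^ l) = true
        rw [Nat.testBit_shiftRight]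
        rw [show 2 ^ l + (x - 2 ^ l) = x by omega]
        exact hS

/-- bounded universal quantifier -/
def allLt : ℕ → (ℕ → Bool) → Bool
  | 0, _ => true
  | n + 1, p => p n && allLt n p

lemma allLt_spec (p : ℕ → Bool) : ∀ n, allLt n p = true → ∀ x < n, p x = true := by
  intro n
  induction n with
  | zero => intro _ x hx; omega
  | succ n ih =>
    intro h x hx
    simp only [allLt, Bool.and_eq_true] at h
    rcases Nat.lt_succ_iff_lt_or_eq.mp hx with h1 | h1
    · exact ih h.2 x h1
    · rw [h1]; exact h.1

/-- all basic facts about single bit translations, to be verified by computation -/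
def factB (b x : ℕ) : Bool :=
  (mkl b).testBit x == !x.testBit b &&
  (bif x.testBit b then (Nat.ble (2 ^ b) x && Nat.beq (x - 2 ^ b) (x ^^^ 2 ^ b)
      && (mkl b).testBit (x - 2 ^ b))
    else (Nat.beq (x + 2 ^ b) (x ^^^ 2 ^ b) &&
      (!(Nat.ble (2 ^ b) x) || !(mkl b).testBit (x - 2 ^ b))))

lemma factB_all : (allLt 10 fun b => allLt 1024 fun x => factB b x) = true := by
  decide +kernel

lemma mkl_spec {b x : ℕ} (hb : b < 10) (hx : x < 1024) :
    (mkl b).testBit x = !x.testBit b := by
  have h := allLt_spec _ _ (allLt_spec _ _ factB_all b hb) x hx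
  unfold factB at h
  simp only [Bool.and_eq_true, beq_iff_eq] at h
  exact h.1

lemma swp_spec {b x : ℕ} (hb : b < 10) (hx : x < 1024) (S : ℕ) :
    (swp (2 ^ b) (mkl b) S).testBit x = S.testBit (x ^^^ 2 ^ b) := by
  have h := allLt_spec _ _ (allLt_spec _ _ factB_all b hb) x hx
  unfold factB at h
  change (((S &&& mkl b) <<< (2 ^ b)) ||| ((S >>> (2 ^ b)) &&& mkl b)).testBit x = _
  rw [Nat.testBit_or, Nat.testBit_shiftLeft, Nat.testBit_and, Nat.testBit_and,
    Nat.testBit_shiftRight]
  cases hxb : x.testBit b
  · rw [hxb] at h
    simp only [Bool.not_false, cond_false, Bool.and_eq_true, beq_iff_eq, Bool.or_eq_true,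
      Bool.not_eq_true'] at h
    obtain ⟨h1, h2, h3⟩ := h
    have h2' : x + 2 ^ b = x ^^^ 2 ^ b := Nat.eq_of_beq_eq_true h2
    rw [h1, ← h2', Nat.add_comm (2 ^ b) x]
    rcases h3 with h3 | h3
    · have : ¬ (x ≥ 2 ^ b) := by
        intro hge
        rw [Nat.ble_eq_true_of_le hge] at h3
        exact absurd h3 (by decide)
      simp [this]
    · rw [h3]; simp
  · rw [hxb] at h
    simp only [Bool.not_true, cond_true, Bool.and_eq_true, beq_iff_eq] at h
    obtain ⟨h1, ⟨h2, h3⟩, h4⟩ := h
    have h3' : x - 2 ^ b = x ^^^ 2 ^ b := Nat.eq_of_beq_eq_true h3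
    have h2' : 2 ^ b ≤ x := Nat.le_of_ble_eq_true h2
    rw [h1, h4, ← h3']
    simp [h2']

lemma xor_lt {a b : ℕ} (ha : a < 1024) (hb : b < 1024) : a ^^^ b < 1024 :=
  Nat.xor_lt_two_pow (n := 10) ha hb

/-- the `b`-part of `v` -/
def prt (v b : ℕ) : ℕ := bif Nat.beq ((v >>> b) &&& 1) 1 then 2 ^ b else 0

lemma cs_spec {v b x : ℕ} (hb : b < 10) (hx : x < 1024) (S : ℕ) :
    (cs v b (2 ^ b) (mkl b) S).testBit x = S.testBit (x ^^^ prt v b) := by
  unfold cs prt
  change (Bool.rec S (swp (2 ^ b) (mkl b) S) (Nat.beq ((v >>> b) &&& 1) 1) : ℕ).testBit x = _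
  cases Nat.beq ((v >>> b) &&& 1) 1
  · simp
  · simp only [cond_true]
    exact swp_spec hb hx S

lemma prt_lt {v b : ℕ} (hb : b < 10) : prt v b < 1024 := by
  unfold prt
  cases Nat.beq ((v >>> b) &&& 1) 1
  · simp
  · simp only [cond_true]
    exact Nat.pow_lt_pow_right (by norm_num) hb

lemma recomp_all : (allLt 1024 fun v => Nat.beq (prt v 9 ^^^ prt v 8 ^^^ prt v 7 ^^^ prt v 6 ^^^
    prt v 5 ^^^ prt v 4 ^^^ prt v 3 ^^^ prt v 2 ^^^ prt v 1 ^^^ prt v 0) v) = true := by
  decide +kernel

lemma cs_spec' {v b x s m : ℕ} (hb : b < 10) (hx : x < 1024) (S : ℕ) (hs : s = 2 ^ b)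
    (hm : m = mkl b) : (cs v b s m S).testBit x = S.testBit (x ^^^ prt v b) := by
  subst hs hm
  exact cs_spec hb hx S

lemma mkl_eq0 : mk0 = mkl 0 := by simp [mkl]
lemma mkl_eq1 : mk1 = mkl 1 := by simp [mkl]
lemma mkl_eq2 : mk2 = mkl 2 := by simp [mkl]
lemma mkl_eq3 : mk3 = mkl 3 := by simp [mkl]
lemma mkl_eq4 : mk4 = mkl 4 := by simp [mkl]
lemma mkl_eq5 : mk5 = mkl 5 := by simp [mkl]
lemma mkl_eq6 : mk6 = mkl 6 := by simp [mkl]
lemma mkl_eq7 : mk7 = mkl 7 := by simp [mkl]
lemma mkl_eq8 : mk8 = mkl 8 := by simp [mkl]
lemma mkl_eq9 : mk9 = mkl 9 := by simp [mkl]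

lemma tr_spec {v x : ℕ} (hv : v < 1024) (hx : x < 1024) (S : ℕ) :
    (tr S v).testBit x = S.testBit (x ^^^ v) := by
  have h := Nat.eq_of_beq_eq_true (allLt_spec _ _ recomp_all v hv)
  unfold tr
  have l9 := xor_lt hx (prt_lt (v := v) (b := 9) (by norm_num))
  have l8 := xor_lt l9 (prt_lt (v := v) (b := 8) (by norm_num))
  have l7 := xor_lt l8 (prt_lt (v := v) (b := 7) (by norm_num))
  have l6 := xor_lt l7 (prt_lt (v := v) (b := 6) (by norm_num))
  have l5 := xor_lt l6 (prt_lt (v := v) (b := 5) (by norm_num))
  have l4 := xor_lt l5 (prt_lt (v := v) (b := 4) (by norm_num))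
  have l3 := xor_lt l4 (prt_lt (v := v) (b := 3) (by norm_num))
  have l2 := xor_lt l3 (prt_lt (v := v) (b := 2) (by norm_num))
  have l1 := xor_lt l2 (prt_lt (v := v) (b := 1) (by norm_num))
  rw [cs_spec' (b := 9) (by norm_num) hx _ (by norm_num) mkl_eq9,
    cs_spec' (b := 8) (by norm_num) l9 _ (by norm_num) mkl_eq8,
    cs_spec' (b := 7) (by norm_num) l8 _ (by norm_num) mkl_eq7,
    cs_spec' (b := 6) (by norm_num) l7 _ (by norm_num) mkl_eq6,
    cs_spec' (b := 5) (by norm_num) l6 _ (by norm_num) mkl_eq5,
    cs_spec' (b := 4) (by norm_num) l5 _ (by norm_num) mkl_eq4,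
    cs_spec' (b := 3) (by norm_num) l4 _ (by norm_num) mkl_eq3,
    cs_spec' (b := 2) (by norm_num) l3 _ (by norm_num) mkl_eq2,
    cs_spec' (b := 1) (by norm_num) l2 _ (by norm_num) mkl_eq1,
    cs_spec' (b := 0) (by norm_num) l1 _ (by norm_num) mkl_eq0]
  congr 1
  calc _ = x ^^^ (prt v 9 ^^^ prt v 8 ^^^ prt v 7 ^^^ prt v 6 ^^^
    prt v 5 ^^^ prt v 4 ^^^ prt v 3 ^^^ prt v 2 ^^^ prt v 1 ^^^ prt v 0) := by
        simp only [Nat.xor_assoc]
    _ = x ^^^ v := by rw [h]

lemma st_spec {w x : ℕ} (hw : w < 1024) (hx : x < 1024) (S : ℕ) :
    (st S w).testBit x = (S.testBit x && S.testBit (x ^^^ w)) := by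
  change (S &&& tr S w).testBit x = _
  rw [Nat.testBit_and, tr_spec hw hx]

/-! ### The search -/

/-- the sixteen elements spanned by four vectors -/
def span4 (a b c d : ℕ) : List ℕ :=
  [0, a, b, a ^^^ b, c, a ^^^ c, b ^^^ c, a ^^^ b ^^^ c,
   d, a ^^^ d, b ^^^ d, a ^^^ b ^^^ d, c ^^^ d, a ^^^ c ^^^ d, b ^^^ c ^^^ d, a ^^^ b ^^^ c ^^^ d]

/-- mask of a list -/
def maskOf : List ℕ → ℕ
  | [] => 0
  | a :: l => (1 <<< a) ||| maskOf l

lemma maskOf_spec (l : List ℕ) (x : ℕ) (h : (maskOf l).testBit x = true) : x ∈ l := by
  induction l with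
  | nil => simp [maskOf] at h
  | cons a l ih =>
    rw [maskOf, Nat.testBit_or, Bool.or_eq_true] at h
    rcases h with h | h
    · rw [Nat.one_shiftLeft, Nat.testBit_two_pow] at h
      have : a = x := by simpa using h
      rw [this]; exact List.mem_cons_self
    · exact List.mem_cons_of_mem _ (ih h)

/-- keep the bits at positions `≥ 2^(log2 c + 1)` -/
def up (c S : ℕ) : ℕ :=
  Nat.shiftLeft (Nat.shiftRight S (Nat.shiftLeft 2 (Nat.log2 c))) (Nat.shiftLeft 2 (Nat.log2 c))

lemma up_spec (c S x : ℕ) (hx : 2 ^ (Nat.log2 c + 1) ≤ x) (h : S.testBit x = true) :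
    (up c S).testBit x = true := by
  unfold up
  change ((S >>> (2 <<< Nat.log2 c)) <<< (2 <<< Nat.log2 c)).testBit x = true
  have e : 2 <<< Nat.log2 c = 2 ^ (Nat.log2 c + 1) := by
    rw [Nat.shiftLeft_eq, pow_succ]; ring
  rw [e, Nat.testBit_shiftLeft, Nat.testBit_shiftRight]
  rw [show 2 ^ (Nat.log2 c + 1) + (x - 2 ^ (Nat.log2 c + 1)) = x by omega, h]
  simp [hx]

/-- last step: no further translate of the spanned subspace lies in the zero set or in the
union -/
noncomputable def leaf (a b c T S d : ℕ) : Bool :=
  Bool.rec false (Nat.beq (st (st T c) d) 0) (Nat.beq (st S d) (maskOf (span4 a b c d)))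

/-- third level -/
noncomputable def lev3 (a b T PM S c : ℕ) : Bool :=
  allB (leaf a b c T (st S c)) 10 0 (up c (Nat.land (st S c) (Nat.land PM (mkl (Nat.log2 c)))))

/-- second level -/
noncomputable def lev2 (a T PM S b : ℕ) : Bool :=
  allB (lev3 a b (st T b) (Nat.land PM (mkl (Nat.log2 b))) (st S b)) 9 0
    (Nat.mod (up b (Nat.land (st S b) (Nat.land PM (mkl (Nat.log2 b))))) (Nat.pow 2 512))

/-- first level -/
noncomputable def lev1 (T S a : ℕ) : Bool :=
  Bool.rec
  (allB (lev2 a (st T a) (mkl (Nat.log2 a)) (st S a)) 8 0
    (Nat.mod (up a (Nat.land (st S a) (mkl (Nat.log2 a)))) (Nat.pow 2 256)))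
  true (Nat.beq a 0)

/-- the whole search -/
noncomputable def search : Bool := allB (lev1 uMask zMask) 7 0 (Nat.mod zMask (Nat.pow 2 128))

lemma search_true : search = true := by
  decide +kernel

lemma testBit_log2_of_lt {a w : ℕ} (hw : w ≠ 0) (h : a < a ^^^ w) :
    a.testBit (Nat.log2 w) = false := by
  by_contra hne
  have ha : a.testBit (Nat.log2 w) = true := by simpa using hne
  have hw1 : w.testBit (Nat.log2 w) = true := Nat.testBit_log2 hw
  have : a ^^^ w < a := by
    apply Nat.lt_of_testBit (Nat.log2 w)
    · rw [Nat.testBit_xor, ha, hw1]; rfl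
    · exact ha
    · intro j hj
      rw [Nat.testBit_xor]
      have : w.testBit j = false := by
        apply Nat.testBit_lt_two_pow
        calc w < 2 ^ (Nat.log2 w + 1) := Nat.lt_log2_self
          _ ≤ 2 ^ j := Nat.pow_le_pow_right (by norm_num) hj
      rw [this, Bool.xor_false]
  omega

lemma ge_of_lt {a w : ℕ} (hw : w ≠ 0) (h : a < a ^^^ w) (hwa : w < a) :
    2 ^ (Nat.log2 w + 1) ≤ a := by
  by_contra hlt
  push Not at hlt
  have h1 := testBit_log2_of_lt hw h
  have h2 : 2 ^ Nat.log2 w ≤ w := Nat.log2_self_le hw
  have h3 : a.testBit (Nat.log2 w) = true := by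
    apply Nat.testBit_of_two_pow_le_and_two_pow_add_one_gt
    · omega
    · exact hlt
  rw [h1] at h3
  exact absurd h3 (by decide)

lemma log2_lt {w : ℕ} (h0 : w ≠ 0) (hw : w < 1024) : Nat.log2 w < 10 := by
  rw [Nat.log2_lt h0]
  exact hw

/-- what the search proves -/
lemma leaf_of_search {a b c d : ℕ} (ha0 : a ≠ 0) (ha : a < 128) (hb : b < 256) (hc : c < 512)
    (hd : d < 1024) (hab : a < b) (hbc : b < c) (hcd : c < d)
    (hba : b < b ^^^ a) (hca : c < c ^^^ a) (hcb : c < c ^^^ b)
    (hda : d < d ^^^ a) (hdb : d < d ^^^ b) (hdc : d < d ^^^ c)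
    (h1 : zMask.testBit a = true) (h2 : (st zMask a).testBit b = true)
    (h3 : (st (st zMask a) b).testBit c = true)
    (h4 : (st (st (st zMask a) b) c).testBit d = true) :
    leaf a b c (st (st uMask a) b) (st (st (st zMask a) b) c) d = true := by
  have hb0 : b ≠ 0 := by omega
  have hc0 : c ≠ 0 := by omega
  have la := log2_lt ha0 (by omega : a < 1024)
  have lb := log2_lt hb0 (by omega : b < 1024)
  have lc := log2_lt hc0 (by omega : c < 1024)
  have s := search_true
  unfold search at s
  have s1 := allB_spec _ _ _ _ s a (by omega) (by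
    change (zMask % 2 ^ 128).testBit a = true
    rw [Nat.testBit_mod_two_pow, h1]; simp [ha])
  rw [Nat.zero_add] at s1
  unfold lev1 at s1
  have hab0 : Nat.beq a 0 = false := by
    cases hh : Nat.beq a 0
    · rfl
    · exact absurd (Nat.eq_of_beq_eq_true hh) ha0
  rw [hab0] at s1
  have s1' : allB (lev2 a (st uMask a) (mkl (Nat.log2 a)) (st zMask a)) 8 0
    (Nat.mod (up a (Nat.land (st zMask a) (mkl (Nat.log2 a)))) (Nat.pow 2 256)) = true := s1
  have s2 := allB_spec _ _ _ _ s1' b (by omega) (by
    change ((up a (st zMask a &&& mkl (Nat.log2 a))) % 2 ^ 256).testBit b = true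
    rw [Nat.testBit_mod_two_pow, up_spec _ _ _ (ge_of_lt ha0 hba hab)]
    · simp [hb]
    · rw [Nat.testBit_and, h2, mkl_spec la (by omega), testBit_log2_of_lt ha0 hba]
      rfl)
  rw [Nat.zero_add] at s2
  unfold lev2 at s2
  have s3 := allB_spec _ _ _ _ s2 c (by omega) (by
    change ((up b (st (st zMask a) b &&& (mkl (Nat.log2 a) &&& mkl (Nat.log2 b)))) %
      2 ^ 512).testBit c = true
    rw [Nat.testBit_mod_two_pow, up_spec _ _ _ (ge_of_lt hb0 hcb hbc)]
    · simp [hc]
    · rw [Nat.testBit_and, Nat.testBit_and, h3, mkl_spec la (by omega), mkl_spec lb (by omega),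
        testBit_log2_of_lt ha0 hca, testBit_log2_of_lt hb0 hcb]
      rfl)
  rw [Nat.zero_add] at s3
  unfold lev3 at s3
  have s4 := allB_spec _ _ _ _ s3 d (by omega) (by
    change (up c (st (st (st zMask a) b) c &&& ((mkl (Nat.log2 a) &&& mkl (Nat.log2 b))
      &&& mkl (Nat.log2 c)))).testBit d = true
    apply up_spec _ _ _ (ge_of_lt hc0 hdc hcd)
    rw [Nat.testBit_and, Nat.testBit_and, Nat.testBit_and, h4, mkl_spec la (by omega),
        mkl_spec lb (by omega), mkl_spec lc (by omega), testBit_log2_of_lt ha0 hda,
        testBit_log2_of_lt hb0 hdb, testBit_log2_of_lt hc0 hdc]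
    rfl)
  rw [Nat.zero_add] at s4
  exact s4

/-! ### A reduced basis -/

/-- closed under addition -/
def Closed (T : Finset ℕ) : Prop := 0 ∈ T ∧ ∀ x ∈ T, ∀ y ∈ T, x ^^^ y ∈ T

/-- the subspace spanned by `T` and `b` -/
def ext (T : Finset ℕ) (b : ℕ) : Finset ℕ := T ∪ T.image (fun x => x ^^^ b)

lemma mem_ext {T : Finset ℕ} {b x : ℕ} : x ∈ ext T b ↔ x ∈ T ∨ x ^^^ b ∈ T := by
  unfold ext
  rw [Finset.mem_union, Finset.mem_image]
  constructor
  · rintro (h | ⟨y, hy, rfl⟩)
    · exact Or.inl h
    · right
      rw [Nat.xor_assoc, Nat.xor_self, Nat.xor_zero]; exact hy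
  · rintro (h | h)
    · exact Or.inl h
    · right
      exact ⟨x ^^^ b, h, by rw [Nat.xor_assoc, Nat.xor_self, Nat.xor_zero]⟩

lemma closed_ext {T : Finset ℕ} (h : Closed T) (b : ℕ) : Closed (ext T b) := by
  refine ⟨mem_ext.mpr (Or.inl h.1), ?_⟩
  intro x hx y hy
  rw [mem_ext] at hx hy ⊢
  rcases hx with hx | hx <;> rcases hy with hy | hy
  · exact Or.inl (h.2 x hx y hy)
  · right
    have := h.2 x hx _ hy
    rwa [← Nat.xor_assoc] at this
  · right
    have := h.2 _ hx y hy
    rw [Nat.xor_assoc, Nat.xor_comm b y, ← Nat.xor_assoc] at this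
    exact this
  · left
    have := h.2 _ hx _ hy
    rw [Nat.xor_comm y b, Nat.xor_assoc, ← Nat.xor_assoc b b y, Nat.xor_self, Nat.zero_xor] at this
    exact this

lemma card_ext_le (T : Finset ℕ) (b : ℕ) : (ext T b).card ≤ 2 * T.card := by
  unfold ext
  calc (T ∪ T.image (fun x => x ^^^ b)).card ≤ T.card + (T.image (fun x => x ^^^ b)).card :=
        Finset.card_union_le _ _
    _ ≤ T.card + T.card := Nat.add_le_add_left Finset.card_image_le _
    _ = 2 * T.card := by ring

lemma ext_subset {T M : Finset ℕ} {b : ℕ} (hM : Closed M) (hT : T ⊆ M) (hb : b ∈ M) :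
    ext T b ⊆ M := by
  intro x hx
  rcases mem_ext.mp hx with h | h
  · exact hT h
  · have := hM.2 _ (hT h) b hb
    rwa [Nat.xor_assoc, Nat.xor_self, Nat.xor_zero] at this

lemma self_mem_ext {T : Finset ℕ} (h : Closed T) (b : ℕ) : b ∈ ext T b :=
  mem_ext.mpr (Or.inr (by rw [Nat.xor_self]; exact h.1))

lemma subset_ext (T : Finset ℕ) (b : ℕ) : T ⊆ ext T b := fun _ hx => mem_ext.mpr (Or.inl hx)

lemma card_low {M : Finset ℕ} (hM : Closed M) (hlt : ∀ x ∈ M, x < 1024) (hc : 16 ≤ M.card)
    (j r : ℕ) (hj : j + r = 10) (hr : r ≤ 4) :
    2 ^ (4 - r) ≤ (M.filter (fun x => x < 2 ^ j)).card := by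
  have hmaps : ∀ x ∈ M, x / 2 ^ j ∈ Finset.range (2 ^ r) := by
    intro x hx
    rw [Finset.mem_range]
    apply Nat.div_lt_of_lt_mul
    rw [← pow_add, hj]
    exact hlt x hx
  have hne : (Finset.range (2 ^ r)).Nonempty := ⟨0, Finset.mem_range.mpr (by positivity)⟩
  have hle : (Finset.range (2 ^ r)).card * 2 ^ (4 - r) ≤ M.card := by
    rw [Finset.card_range, ← pow_add, show r + (4 - r) = 4 by omega]
    exact hc
  obtain ⟨y, _, hy⟩ := Finset.exists_le_card_fiber_of_mul_le_card_of_maps_to
    (s := M) (t := Finset.range (2 ^ r)) (f := fun x : ℕ => x / 2 ^ j) (n := 2 ^ (4 - r)) hmaps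
    hne hle
  have hpos : 0 < (M.filter (fun x => x / 2 ^ j = y)).card :=
    lt_of_lt_of_le (by positivity) hy
  obtain ⟨x0, hx0⟩ := Finset.card_pos.mp hpos
  rw [Finset.mem_filter] at hx0
  refine le_trans hy ?_
  apply Finset.card_le_card_of_injOn (fun x => x ^^^ x0)
  · intro x hx
    rw [Finset.mem_coe, Finset.mem_filter] at hx
    rw [Finset.mem_coe, Finset.mem_filter]
    refine ⟨hM.2 x hx.1 x0 hx0.1, ?_⟩
    have h1 : (x ^^^ x0) >>> j = 0 := by
      rw [Nat.shiftRight_xor_distrib, Nat.shiftRight_eq_div_pow, Nat.shiftRight_eq_div_pow,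
        hx.2, hx0.2, Nat.xor_self]
    rw [Nat.shiftRight_eq_div_pow] at h1
    have h2 : 0 < 2 ^ j := by positivity
    exact (Nat.div_eq_zero_iff_lt h2).mp h1
  · intro x _ y _ hxy
    simp only at hxy
    have : (x ^^^ x0) ^^^ x0 = (y ^^^ x0) ^^^ x0 := by rw [hxy]
    rwa [Nat.xor_assoc, Nat.xor_assoc, Nat.xor_self, Nat.xor_zero, Nat.xor_zero] at this

lemma pick {M T : Finset ℕ} {B : ℕ} (h : T.card < (M.filter (fun x => x < B)).card) :
    ∃ a ∈ M, a ∉ T ∧ a < B ∧ ∀ y ∈ M, y ∉ T → a ≤ y := by
  obtain ⟨z, hz, hzT⟩ := Finset.exists_mem_notMem_of_card_lt_card h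
  rw [Finset.mem_filter] at hz
  have hne : (M \ T).Nonempty := ⟨z, Finset.mem_sdiff.mpr ⟨hz.1, hzT⟩⟩
  refine ⟨(M \ T).min' hne, ?_, ?_, ?_, ?_⟩
  · exact (Finset.mem_sdiff.mp ((M \ T).min'_mem hne)).1
  · exact (Finset.mem_sdiff.mp ((M \ T).min'_mem hne)).2
  · exact lt_of_le_of_lt ((M \ T).min'_le z (Finset.mem_sdiff.mpr ⟨hz.1, hzT⟩)) hz.2
  · intro y hy hyT
    exact (M \ T).min'_le y (Finset.mem_sdiff.mpr ⟨hy, hyT⟩)

lemma lt_xor {M T : Finset ℕ} (hM : Closed M) (hT : Closed T) (hTM : T ⊆ M) {v w : ℕ}
    (hv : v ∈ M) (hvT : v ∉ T) (hmin : ∀ y ∈ M, y ∉ T → v ≤ y) (hw : w ∈ T) (hw0 : w ≠ 0) :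
    v < v ^^^ w := by
  have h1 : v ^^^ w ∉ T := by
    intro h
    have := hT.2 _ h w hw
    rw [Nat.xor_assoc, Nat.xor_self, Nat.xor_zero] at this
    exact hvT this
  have h2 := hmin _ (hM.2 v hv w (hTM hw)) h1
  refine lt_of_le_of_ne h2 ?_
  intro heq
  apply hw0
  have : v ^^^ v = v ^^^ (v ^^^ w) := by rw [← heq]
  rw [Nat.xor_self, ← Nat.xor_assoc, Nat.xor_self, Nat.zero_xor] at this
  exact this.symm

lemma st_all {C : Finset ℕ} (hlt : ∀ x ∈ C, x < 1024) {w : ℕ} (hw : w < 1024)
    (hC : ∀ x ∈ C, x ^^^ w ∈ C) {S : ℕ} (hS : ∀ x ∈ C, S.testBit x = true) :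
    ∀ x ∈ C, (st S w).testBit x = true := by
  intro x hx
  rw [st_spec hw (hlt x hx), hS x hx, hS _ (hC x hx)]
  rfl

lemma zMask_compl : (allLt 1024 fun n => zMask.testBit n == !uMask.testBit n) = true := by
  decide +kernel

/-- The main combinatorial statement extracted from the search: every closed set `M` of at least
16 elements in the zero set contains a closed set `T` of at most 16 elements no further translate
of which lies in the zero set or in the union. -/
lemma no_translate {M : Finset ℕ} (hM : Closed M) (hlt : ∀ x ∈ M, x < 1024) (hc : 16 ≤ M.card)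
    (hZ : ∀ x ∈ M, zMask.testBit x = true) :
    ∃ T : Finset ℕ, T ⊆ M ∧ T.card ≤ 16 ∧ Closed T ∧ ∀ u < 1024, u ∉ T →
      ¬ (∀ s ∈ T, uMask.testBit (u ^^^ s) = true) ∧
      ¬ (∀ s ∈ T, zMask.testBit (u ^^^ s) = true) := by
  set T0 : Finset ℕ := {0} with hT0
  have c0 : Closed T0 := by
    refine ⟨by simp [hT0], ?_⟩
    intro x hx y hy
    simp only [hT0, Finset.mem_singleton] at hx hy ⊢
    rw [hx, hy]; rfl
  have s0 : T0 ⊆ M := by
    intro x hx
    simp only [hT0, Finset.mem_singleton] at hx
    rw [hx]; exact hM.1
  have k0 : T0.card = 1 := by simp [hT0]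
  have L1 := card_low hM hlt hc 7 3 (by norm_num) (by norm_num)
  have L2 := card_low hM hlt hc 8 2 (by norm_num) (by norm_num)
  have L3 := card_low hM hlt hc 9 1 (by norm_num) (by norm_num)
  have L4 := card_low hM hlt hc 10 0 (by norm_num) (by norm_num)
  norm_num at L1 L2 L3 L4
  obtain ⟨a, haM, haT, ha, hamin⟩ := pick (M := M) (T := T0) (B := 128) (by rw [k0]; omega)
  set T1 := ext T0 a with hT1
  have c1 : Closed T1 := closed_ext c0 a
  have s1 : T1 ⊆ M := ext_subset hM s0 haM
  have k1 : T1.card ≤ 2 := by have := card_ext_le T0 a; rw [← hT1] at this; omega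
  have ma : a ∈ T1 := self_mem_ext c0 a
  obtain ⟨b, hbM, hbT, hb, hbmin⟩ := pick (M := M) (T := T1) (B := 256) (by omega)
  set T2 := ext T1 b with hT2
  have c2 : Closed T2 := closed_ext c1 b
  have s2 : T2 ⊆ M := ext_subset hM s1 hbM
  have k2 : T2.card ≤ 4 := by have := card_ext_le T1 b; rw [← hT2] at this; omega
  have mb : b ∈ T2 := self_mem_ext c1 b
  have ma2 : a ∈ T2 := subset_ext _ _ ma
  obtain ⟨c, hcM, hcT, hcc, hcmin⟩ := pick (M := M) (T := T2) (B := 512) (by omega)
  set T3 := ext T2 c with hT3
  have c3 : Closed T3 := closed_ext c2 c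
  have s3 : T3 ⊆ M := ext_subset hM s2 hcM
  have k3 : T3.card ≤ 8 := by have := card_ext_le T2 c; rw [← hT3] at this; omega
  have mc : c ∈ T3 := self_mem_ext c2 c
  have ma3 : a ∈ T3 := subset_ext _ _ ma2
  have mb3 : b ∈ T3 := subset_ext _ _ mb
  obtain ⟨d, hdM, hdT, hd, hdmin⟩ := pick (M := M) (T := T3) (B := 1024) (by omega)
  set T4 := ext T3 d with hT4
  have c4 : Closed T4 := closed_ext c3 d
  have s4 : T4 ⊆ M := ext_subset hM s3 hdM
  have k4 : T4.card ≤ 16 := by have := card_ext_le T3 d; rw [← hT4] at this; omega
  have md : d ∈ T4 := self_mem_ext c3 d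
  have mc4 : c ∈ T4 := subset_ext _ _ mc
  have mb4 : b ∈ T4 := subset_ext _ _ mb3
  have ma4 : a ∈ T4 := subset_ext _ _ ma3
  have ha0 : a ≠ 0 := fun h => haT (by rw [h]; exact c0.1)
  have hb0 : b ≠ 0 := fun h => hbT (by rw [h]; exact c1.1)
  have hc0 : c ≠ 0 := fun h => hcT (by rw [h]; exact c2.1)
  have hab : a < b := by
    refine lt_of_le_of_ne (hamin b hbM (fun h => hbT (subset_ext _ _ h))) ?_
    intro h; exact hbT (by rw [← h]; exact ma)
  have hbc : b < c := by
    refine lt_of_le_of_ne (hbmin c hcM (fun h => hcT (subset_ext _ _ h))) ?_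
    intro h; exact hcT (by rw [← h]; exact mb)
  have hcd : c < d := by
    refine lt_of_le_of_ne (hcmin d hdM (fun h => hdT (subset_ext _ _ h))) ?_
    intro h; exact hdT (by rw [← h]; exact mc)
  have hba := lt_xor hM c1 s1 hbM hbT hbmin ma ha0
  have hca := lt_xor hM c2 s2 hcM hcT hcmin ma2 ha0
  have hcb := lt_xor hM c2 s2 hcM hcT hcmin mb hb0
  have hda := lt_xor hM c3 s3 hdM hdT hdmin ma3 ha0
  have hdb := lt_xor hM c3 s3 hdM hdT hdmin mb3 hb0
  have hdc := lt_xor hM c3 s3 hdM hdT hdmin mc hc0
  have z1 := st_all hlt (hlt a haM) (fun x hx => hM.2 x hx a haM) hZ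
  have z2 := st_all hlt (hlt b hbM) (fun x hx => hM.2 x hx b hbM) z1
  have z3 := st_all hlt (hlt c hcM) (fun x hx => hM.2 x hx c hcM) z2
  have hleaf := leaf_of_search ha0 ha hb hcc (hlt d hdM) hab hbc hcd hba hca hcb hda hdb hdc
    (hZ a haM) (z1 b hbM) (z2 c hcM) (z3 d hdM)
  unfold leaf at hleaf
  have e1 : Nat.beq (st (st (st (st zMask a) b) c) d) (maskOf (span4 a b c d)) = true := by
    cases hh : Nat.beq (st (st (st (st zMask a) b) c) d) (maskOf (span4 a b c d))
    · rw [hh] at hleaf
      exact Bool.noConfusion (show false = true from hleaf)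
    · rfl
  rw [e1] at hleaf
  have e2 : Nat.beq (st (st (st (st uMask a) b) c) d) 0 = true := hleaf
  have e1' := Nat.eq_of_beq_eq_true e1
  have e2' := Nat.eq_of_beq_eq_true e2
  refine ⟨T4, s4, k4, c4, ?_⟩
  intro u hu huT
  -- the coset of `u`
  set C : Finset ℕ := T4.image (fun s => u ^^^ s) with hC
  have hClt : ∀ x ∈ C, x < 1024 := by
    intro x hx
    rw [hC, Finset.mem_image] at hx
    obtain ⟨s, hs, rfl⟩ := hx
    exact xor_lt hu (hlt s (s4 hs))
  have hCw : ∀ w ∈ T4, ∀ x ∈ C, x ^^^ w ∈ C := by
    intro w hw x hx
    rw [hC, Finset.mem_image] at hx ⊢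
    obtain ⟨s, hs, rfl⟩ := hx
    exact ⟨s ^^^ w, c4.2 s hs w hw, by rw [Nat.xor_assoc]⟩
  have huC : u ∈ C := by
    rw [hC, Finset.mem_image]
    exact ⟨0, c4.1, by rw [Nat.xor_zero]⟩
  have chain : ∀ S : ℕ, (∀ s ∈ T4, S.testBit (u ^^^ s) = true) →
      (st (st (st (st S a) b) c) d).testBit u = true := by
    intro S hS
    have hS' : ∀ x ∈ C, S.testBit x = true := by
      intro x hx
      rw [hC, Finset.mem_image] at hx
      obtain ⟨s, hs, rfl⟩ := hx
      exact hS s hs
    have y1 := st_all hClt (hlt a haM) (hCw a ma4) hS'
    have y2 := st_all hClt (hlt b hbM) (hCw b mb4) y1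
    have y3 := st_all hClt (hlt c hcM) (hCw c mc4) y2
    have y4 := st_all hClt (hlt d hdM) (hCw d md) y3
    exact y4 u huC
  constructor
  · intro h
    have := chain uMask h
    rw [e2'] at this
    simp at this
  · intro h
    have := chain zMask h
    rw [e1'] at this
    have hmem := maskOf_spec _ _ this
    apply huT
    have x2 := c4.2
    have m0 := c4.1
    have ab := x2 a ma4 b mb4
    have ac := x2 a ma4 c mc4
    have bc := x2 b mb4 c mc4
    have abc := x2 _ ab c mc4
    have ad := x2 a ma4 d md
    have bd := x2 b mb4 d md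
    have abd := x2 _ ab d md
    have cd := x2 c mc4 d md
    have acd := x2 _ ac d md
    have bcd := x2 _ bc d md
    have abcd := x2 _ abc d md
    simp only [span4, List.mem_cons, List.not_mem_nil, or_false] at hmem
    rcases hmem with h | h | h | h | h | h | h | h | h | h | h | h | h | h | h | h <;>
      (rw [h]; assumption)

/-! ### The subspaces -/

/-- the vector with binary expansion `n` -/
def dec (n : ℕ) : Vec (2 * 5) := fun i => if n.testBit i then 1 else 0

lemma dec_xor (a b : ℕ) : dec (a ^^^ b) = dec a + dec b := by
  funext i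
  simp only [dec, Pi.add_apply, Nat.testBit_xor]
  cases a.testBit i <;> cases b.testBit i <;> decide

lemma dec_zero : dec 0 = 0 := by
  funext i
  simp [dec]

lemma dec_inj {a b : ℕ} (ha : a < 1024) (hb : b < 1024) (h : dec a = dec b) : a = b := by
  apply Nat.eq_of_testBit_eq
  intro i
  by_cases hi : i < 10
  · have := congrFun h ⟨i, hi⟩
    simp only [dec] at this
    revert this
    cases a.testBit i <;> cases b.testBit i <;> simp
  · push Not at hi
    rw [Nat.testBit_lt_two_pow (lt_of_lt_of_le ha (by
        calc 1024 = 2 ^ 10 := by norm_num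
          _ ≤ 2 ^ i := Nat.pow_le_pow_right (by norm_num) hi)),
      Nat.testBit_lt_two_pow (lt_of_lt_of_le hb (by
        calc 1024 = 2 ^ 10 := by norm_num
          _ ≤ 2 ^ i := Nat.pow_le_pow_right (by norm_num) hi))]

lemma dec_surj (x : Vec (2 * 5)) : ∃ n < 1024, dec n = x := by
  have hb : Function.Bijective (fun n : Fin 1024 => dec n) := by
    rw [Fintype.bijective_iff_injective_and_card]
    constructor
    · intro a b h
      exact Fin.ext (dec_inj a.2 b.2 h)
    · simp
  obtain ⟨n, hn⟩ := hb.2 x
  exact ⟨n, n.2, hn⟩

/-- the parity of the number of ones among the last ten binary digits -/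
def par (x : ℕ) : Bool :=
  (x.testBit 0 ^^ x.testBit 1 ^^ x.testBit 2 ^^ x.testBit 3 ^^ x.testBit 4 ^^ x.testBit 5 ^^
    x.testBit 6 ^^ x.testBit 7 ^^ x.testBit 8 ^^ x.testBit 9)

lemma bool_par : ∀ b0 b1 b2 b3 b4 b5 b6 b7 b8 b9 : Bool,
    (if b0 then (1 : ZMod 2) else 0) + (if b1 then 1 else 0) + (if b2 then 1 else 0)
      + (if b3 then 1 else 0) + (if b4 then 1 else 0) + (if b5 then 1 else 0)
      + (if b6 then 1 else 0) + (if b7 then 1 else 0) + (if b8 then 1 else 0)
      + (if b9 then 1 else 0)
      = if (b0 ^^ b1 ^^ b2 ^^ b3 ^^ b4 ^^ b5 ^^ b6 ^^ b7 ^^ b8 ^^ b9) then 1 else 0 := by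
  decide +kernel

lemma dot_dec (m n : ℕ) : dot (dec m) (dec n) = if par (m &&& n) then 1 else 0 := by
  have h1 : dot (dec m) (dec n) = ∑ i ∈ Finset.range 10,
      (if (m &&& n).testBit i then (1 : ZMod 2) else 0) := by
    rw [← Fin.sum_univ_eq_sum_range (fun i => if (m &&& n).testBit i then (1 : ZMod 2) else 0) 10]
    unfold dot dec
    refine Finset.sum_congr rfl fun i _ => ?_
    rw [Nat.testBit_and]
    cases m.testBit i <;> cases n.testBit i <;> simp
  rw [h1]
  simp only [Finset.sum_range_succ, Finset.sum_range_zero, zero_add]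
  exact bool_par _ _ _ _ _ _ _ _ _ _

/-- a mask describes a subspace -/
noncomputable def goodMask (m : ℕ) : Bool := m.testBit 0 && allB (fun a => Nat.beq (tr m a) m) 10 0 m

lemma goodMask_add {m : ℕ} (h : goodMask m = true) {a b : ℕ} (ha : a < 1024) (hb : b < 1024)
    (ma : m.testBit a = true) (mb : m.testBit b = true) : m.testBit (a ^^^ b) = true := by
  unfold goodMask at h
  rw [Bool.and_eq_true] at h
  have h1 := allB_spec _ _ _ _ h.2 b hb mb
  rw [Nat.zero_add] at h1
  have h2 := Nat.eq_of_beq_eq_true h1
  rw [← tr_spec hb ha m, h2]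
  exact ma

/-- the subspace described by a mask -/
def maskSub (m : ℕ) (h : goodMask m = true) : Submodule (ZMod 2) (Vec (2 * 5)) where
  carrier := {x | ∃ n < 1024, m.testBit n = true ∧ dec n = x}
  add_mem' := by
    rintro x y ⟨a, ha, ma, rfl⟩ ⟨b, hb, mb, rfl⟩
    exact ⟨a ^^^ b, xor_lt ha hb, goodMask_add h ha hb ma mb, dec_xor a b⟩
  zero_mem' := by
    refine ⟨0, by norm_num, ?_, dec_zero⟩
    unfold goodMask at h
    rw [Bool.and_eq_true] at h
    exact h.1
  smul_mem' := by
    rintro c x ⟨a, ha, ma, rfl⟩
    rcases zmod2_cases c with hc | hc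
    · refine ⟨0, by norm_num, ?_, ?_⟩
      · unfold goodMask at h
        rw [Bool.and_eq_true] at h
        exact h.1
      · rw [dec_zero, hc, zero_smul]
    · exact ⟨a, ha, ma, by rw [hc, one_smul]⟩

lemma mem_maskSub {m : ℕ} {h : goodMask m = true} {n : ℕ} (hn : n < 1024) :
    dec n ∈ maskSub m h ↔ m.testBit n = true := by
  constructor
  · rintro ⟨a, ha, ma, hna⟩
    rw [← dec_inj ha hn hna]; exact ma
  · intro hm
    exact ⟨n, hn, hm, rfl⟩

open Classical in
lemma cnt_eq_card_aux (V : Submodule (ZMod 2) (Vec (2 * 5))) (N : ℕ) (hN : N = 1024) :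
    ((Finset.range N).filter (fun n => dec n ∈ V)).card
      = ((univ : Finset (Vec (2 * 5))).filter (fun v => v ∈ V)).card := by
  refine Finset.card_bij (fun n _ => dec n) ?_ ?_ ?_
  · intro n hn
    rw [Finset.mem_filter] at hn ⊢
    exact ⟨Finset.mem_univ _, hn.2⟩
  · intro a ha b hb h
    rw [Finset.mem_filter, Finset.mem_range, hN] at ha hb
    exact dec_inj ha.1 hb.1 h
  · intro x hx
    obtain ⟨n, hn, rfl⟩ := dec_surj x
    rw [Finset.mem_filter] at hx
    exact ⟨n, by rw [Finset.mem_filter, Finset.mem_range, hN]; exact ⟨hn, hx.2⟩, rfl⟩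

open Classical in
lemma cnt_eq_card (V : Submodule (ZMod 2) (Vec (2 * 5))) :
    cnt V = (((Finset.range 1024).filter (fun n => dec n ∈ V)).card : ℤ) := by
  rw [cnt_eq_card_aux V 1024 rfl]
  rfl

/-- the masks of the sixteen subspaces -/
def em (i : ℕ) : ℕ := emList.getD i 0

/-- the masks of their orthogonal complements -/
def dm (i : ℕ) : ℕ := dmList.getD i 0

/-- number of ones among the first `n` bits -/
def popc (m : ℕ) : ℕ → ℕ
  | 0 => 0
  | n + 1 => popc m n + (bif m.testBit n then 1 else 0)

lemma popc_spec (m : ℕ) (n : ℕ) :
    ((Finset.range n).filter (fun x => m.testBit x = true)).card = popc m n := by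
  induction n with
  | zero => simp [popc]
  | succ n ih =>
    rw [Finset.range_add_one, Finset.filter_insert, popc, ← ih]
    split_ifs with h
    · rw [Finset.card_insert_of_notMem (by simp), h]; rfl
    · have : m.testBit n = false := by simpa using h
      rw [this]; rfl

lemma em_good : (allLt 16 fun i => goodMask (em i)) = true := by
  decide +kernel

lemma em_card : (allLt 16 fun i => Nat.beq (popc (em i) 1024) 32) = true := by
  decide +kernel

lemma dm_card : (allLt 16 fun i => Nat.beq (popc (dm i) 1024) 32) = true := by
  decide +kernel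

lemma em_disj : (allLt 16 fun i => allLt 16 fun j =>
    Nat.beq i j || Nat.beq (Nat.land (em i) (em j)) 1) = true := by
  decide +kernel

lemma em_dm : (allLt 16 fun i => allB (fun a => allB (fun b => !par (a &&& b)) 10 0 (em i)) 10 0
    (dm i)) = true := by
  decide +kernel

lemma uMask_dm : (allLt 1024 fun n =>
    uMask.testBit n == (!(Nat.beq n 0) && !(allLt 16 fun i => !(dm i).testBit n))) = true := by
  decide +kernel

lemma fin16_lt (i : Fin (2 ^ (5 - 1))) : (i : ℕ) < 16 := i.2

/-- the sixteen subspaces -/
def sub (i : Fin (2 ^ (5 - 1))) : Submodule (ZMod 2) (Vec (2 * 5)) :=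
  maskSub (em i) (allLt_spec _ _ em_good i (fin16_lt i))

lemma cnt_sub (i : Fin (2 ^ (5 - 1))) : cnt (sub i) = 32 := by
  classical
  rw [cnt_eq_card]
  have h1 : (Finset.range 1024).filter (fun n => dec n ∈ sub i)
      = (Finset.range 1024).filter (fun n => (em i).testBit n = true) := by
    apply Finset.filter_congr
    intro n hn
    exact mem_maskSub (Finset.mem_range.mp hn)
  rw [h1, popc_spec, Nat.eq_of_beq_eq_true (allLt_spec _ _ em_card i (fin16_lt i))]
  norm_num

lemma finrank_sub (i : Fin (2 ^ (5 - 1))) : Module.finrank (ZMod 2) (sub i) = 5 := by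
  have h1 := cnt_sub i
  rw [cnt_eq_of_finrank (sub i) rfl] at h1
  have h2 : 2 ^ Module.finrank (ZMod 2) (sub i) = 2 ^ 5 := by
    have : (2 : ℤ) ^ Module.finrank (ZMod 2) (sub i) = 2 ^ 5 := by rw [h1]; norm_num
    exact_mod_cast this
  exact Nat.pow_right_injective (le_refl 2) h2

lemma sub_disj (i j : Fin (2 ^ (5 - 1))) (hij : i ≠ j) : sub i ⊓ sub j = ⊥ := by
  rw [Submodule.eq_bot_iff]
  rintro x ⟨hi, hj⟩
  obtain ⟨n, hn, rfl⟩ := dec_surj x
  have h1 : (em i).testBit n = true := (mem_maskSub hn).mp hi
  have h2 : (em j).testBit n = true := (mem_maskSub hn).mp hj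
  have h3 := allLt_spec _ _ (allLt_spec _ _ em_disj i (fin16_lt i)) j (fin16_lt j)
  rw [Bool.or_eq_true] at h3
  rcases h3 with h3 | h3
  · exact absurd (Fin.ext (Nat.eq_of_beq_eq_true h3)) hij
  · have h4 : em i &&& em j = 1 := Nat.eq_of_beq_eq_true h3
    have h5 : (em i &&& em j).testBit n = true := by rw [Nat.testBit_and, h1, h2]; rfl
    rw [h4, Nat.testBit_one_eq_true_iff_self_eq_zero] at h5
    rw [h5, dec_zero]

open Classical in
lemma mem_perp_sub (i : Fin (2 ^ (5 - 1))) {n : ℕ} (hn : n < 1024) :
    dec n ∈ perp (sub i) ↔ (dm i).testBit n = true := by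
  have hsub : (Finset.range 1024).filter (fun n => (dm i).testBit n = true)
      ⊆ (Finset.range 1024).filter (fun n => dec n ∈ perp (sub i)) := by
    intro m hm
    rw [Finset.mem_filter] at hm ⊢
    refine ⟨hm.1, ?_⟩
    rintro v ⟨a, ha, ma, rfl⟩
    have h1 := allB_spec _ _ _ _ (allLt_spec _ _ em_dm i (fin16_lt i)) m
      (Finset.mem_range.mp hm.1) hm.2
    rw [Nat.zero_add] at h1
    have h2 := allB_spec _ _ _ _ h1 a ha ma
    rw [Nat.zero_add] at h2
    rw [dot_dec]
    have h3 : par (m &&& a) = false := by simpa using h2
    rw [h3]; rfl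
  have hcard : ((Finset.range 1024).filter (fun n => dec n ∈ perp (sub i))).card
      ≤ ((Finset.range 1024).filter (fun n => (dm i).testBit n = true)).card := by
    rw [popc_spec, Nat.eq_of_beq_eq_true (allLt_spec _ _ dm_card i (fin16_lt i))]
    have h1 := cnt_mul_cnt (sub i)
    rw [cnt_sub, cnt_eq_card (perp (sub i))] at h1
    have h2 : (32 : ℤ) * (((Finset.range 1024).filter (fun n => dec n ∈ perp (sub i))).card : ℤ)
        = 1024 := by rw [h1]; norm_num
    omega
  have heq := Finset.eq_of_subset_of_card_le hsub hcard
  have := Finset.ext_iff.mp heq n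
  simp only [mem_filter, mem_range, hn, true_and] at this
  exact this.symm

lemma mem_union {n : ℕ} (hn : n < 1024) (h0 : n ≠ 0) :
    (∃ i, dec n ∈ perp (sub i)) ↔ uMask.testBit n = true := by
  have h1 := allLt_spec _ _ uMask_dm n hn
  have hb : Nat.beq n 0 = false := by
    cases hh : Nat.beq n 0
    · rfl
    · exact absurd (Nat.eq_of_beq_eq_true hh) h0
  rw [hb, beq_iff_eq, Bool.not_false, Bool.true_and] at h1
  rw [h1]
  constructor
  · rintro ⟨i, hi⟩
    rw [mem_perp_sub i hn] at hi
    cases hh : (allLt 16 fun i => !(dm i).testBit n)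
    · rfl
    · have := allLt_spec _ _ hh i (fin16_lt i)
      rw [hi] at this
      exact absurd this (by decide)
  · intro h
    by_contra hne
    push Not at hne
    have hall : ∀ i < 16, (dm i).testBit n = false := by
      intro i hi
      have := hne ⟨i, hi⟩
      rw [mem_perp_sub ⟨i, hi⟩ hn] at this
      simpa using this
    have hconv : ∀ (k : ℕ) (p : ℕ → Bool), (∀ x < k, p x = true) → allLt k p = true := by
      intro k p
      induction k with
      | zero => intro _; rfl
      | succ k ih =>
        intro hp
        simp only [allLt, Bool.and_eq_true]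
        exact ⟨hp k (Nat.lt_succ_self k), ih (fun x hx => hp x (Nat.lt_succ_of_lt hx))⟩
    rw [hconv 16 _ (fun i hi => by rw [hall i hi]; rfl)] at h
    exact absurd h (by decide)

open Classical in
/-- The function of the partial spread. -/
noncomputable def psFun : Vec (2 * 5) → ZMod 2 :=
  fun x => if ∃ i, x ∈ sub i ∧ x ≠ 0 then 1 else 0

lemma psFun_spec (x : Vec (2 * 5)) : psFun x = 1 ↔ ∃ i, x ∈ sub i ∧ x ≠ 0 := by
  unfold psFun
  split_ifs with h
  · exact ⟨fun _ => h, fun _ => rfl⟩
  · exact ⟨fun h1 => absurd h1 (by decide), fun h2 => absurd h2 h⟩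

/-- There is a bent function in `10` variables of the class `PS^-` which is constant on no
`5`-dimensional flat of `F_2^10`. -/
theorem result : ∃ f : Vec (2 * 5) → ZMod 2, IsPSMinus f ∧ ¬ IsNormal f := by
  classical
  refine ⟨psFun, ⟨sub, finrank_sub, sub_disj, psFun_spec⟩, ?_⟩
  rintro ⟨V, c, b, hV, hc⟩
  have hdual := dual_linear (by norm_num) psFun sub finrank_sub sub_disj psFun_spec V hV c b hc
  have hcntV : cnt V = 2 ^ 5 := cnt_eq_of_finrank V hV
  have hcntP : cnt (perp V) = 32 := by
    have := cnt_mul_cnt V
    rw [hcntV] at this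
    norm_num at this
    omega
  set P := (Finset.range 1024).filter (fun n => dec n ∈ perp V) with hP
  have hPc : P.card = 32 := by
    rw [cnt_eq_card] at hcntP
    exact_mod_cast hcntP
  set M := P.filter (fun n => dot c (dec n) = 0) with hMdef
  have hPlt : ∀ x ∈ P, x < 1024 := by
    intro x hx
    rw [hP, Finset.mem_filter] at hx
    exact Finset.mem_range.mp hx.1
  have hPperp : ∀ x ∈ P, dec x ∈ perp V := by
    intro x hx
    rw [hP, Finset.mem_filter] at hx
    exact hx.2
  have hPx : ∀ x ∈ P, ∀ y ∈ P, x ^^^ y ∈ P := by
    intro x hx y hy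
    rw [hP, Finset.mem_filter, Finset.mem_range]
    refine ⟨xor_lt (hPlt x hx) (hPlt y hy), ?_⟩
    rw [dec_xor]
    exact Submodule.add_mem _ (hPperp x hx) (hPperp y hy)
  have hMP : M ⊆ P := Finset.filter_subset _ _
  have hdotx : ∀ x y : ℕ, dot c (dec (x ^^^ y)) = dot c (dec x) + dot c (dec y) := by
    intro x y
    rw [dec_xor, dot_add_right]
  have hM : Closed M := by
    constructor
    · rw [hMdef, Finset.mem_filter, hP, Finset.mem_filter, Finset.mem_range, dec_zero]
      exact ⟨⟨by norm_num, Submodule.zero_mem _⟩, dot_zero_right c⟩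
    · intro x hx y hy
      rw [hMdef, Finset.mem_filter] at hx hy ⊢
      exact ⟨hPx x hx.1 y hy.1, by rw [hdotx, hx.2, hy.2, add_zero]⟩
  have hMlt : ∀ x ∈ M, x < 1024 := fun x hx => hPlt x (hMP hx)
  have hMc : 16 ≤ M.card := by
    have hsplit : M.card + (P.filter (fun n => ¬ dot c (dec n) = 0)).card = P.card :=
      Finset.card_filter_add_card_filter_not (s := P) (fun n => dot c (dec n) = 0)
    rcases Finset.eq_empty_or_nonempty (P.filter (fun n => ¬ dot c (dec n) = 0)) with he | hne
    · rw [he, Finset.card_empty] at hsplit
      omega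
    · obtain ⟨x0, hx0⟩ := hne
      rw [Finset.mem_filter] at hx0
      have hle : (P.filter (fun n => ¬ dot c (dec n) = 0)).card ≤ M.card := by
        apply Finset.card_le_card_of_injOn (fun x => x ^^^ x0)
        · intro x hx
          rw [Finset.mem_coe, Finset.mem_filter] at hx
          rw [Finset.mem_coe, hMdef, Finset.mem_filter]
          refine ⟨hPx x hx.1 x0 hx0.1, ?_⟩
          rw [hdotx]
          have h1 : dot c (dec x) = 1 := by
            rcases zmod2_cases (dot c (dec x)) with h | h
            · exact absurd h hx.2
            · exact h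
          have h2 : dot c (dec x0) = 1 := by
            rcases zmod2_cases (dot c (dec x0)) with h | h
            · exact absurd h hx0.2
            · exact h
          rw [h1, h2]; decide
        · intro x _ y _ hxy
          simp only at hxy
          have : (x ^^^ x0) ^^^ x0 = (y ^^^ x0) ^^^ x0 := by rw [hxy]
          rwa [Nat.xor_assoc, Nat.xor_assoc, Nat.xor_self, Nat.xor_zero, Nat.xor_zero] at this
      omega
  have hkey : ∀ n ∈ P, n ≠ 0 → (uMask.testBit n = true ↔ dot c (dec n) = 1) := by
    intro n hn h0
    rw [← mem_union (hPlt n hn) h0]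
    apply hdual _ (hPperp n hn)
    intro hz
    rw [← dec_zero] at hz
    exact h0 (dec_inj (hPlt n hn) (by norm_num) hz)
  have hz : ∀ n < 1024, zMask.testBit n = !uMask.testBit n := by
    intro n hn
    simpa using allLt_spec _ _ zMask_compl n hn
  have hMZ : ∀ x ∈ M, zMask.testBit x = true := by
    intro x hx
    by_cases h0 : x = 0
    · rw [h0]; decide +kernel
    · have h1 := hkey x (hMP hx) h0
      rw [hMdef, Finset.mem_filter] at hx
      rw [hz x (hPlt x hx.1)]
      cases hh : uMask.testBit x
      · rfl
      · have := h1.mp hh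
        rw [hx.2] at this
        exact absurd this (by decide)
  obtain ⟨T, hTM, hTc, hT, hno⟩ := no_translate hM hMlt hMc hMZ
  obtain ⟨u, huP, huT⟩ := Finset.exists_mem_notMem_of_card_lt_card
    (s := T) (t := P) (by omega)
  have hu := hno u (hPlt u huP) huT
  have hcos : ∀ s ∈ T, (uMask.testBit (u ^^^ s) = true ↔ dot c (dec u) = 1) := by
    intro s hs
    have hsM := hTM hs
    have hsP := hMP hsM
    have hne : u ^^^ s ≠ 0 := by
      intro h
      apply huT
      have : (u ^^^ s) ^^^ s = 0 ^^^ s := by rw [h]
      rw [Nat.xor_assoc, Nat.xor_self, Nat.xor_zero, Nat.zero_xor] at this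
      rw [this]; exact hs
    rw [hkey _ (hPx u huP s hsP) hne, hdotx]
    rw [hMdef, Finset.mem_filter] at hsM
    rw [hsM.2, add_zero]
  rcases zmod2_cases (dot c (dec u)) with h | h
  · apply hu.2
    intro s hs
    rw [hz _ (xor_lt (hPlt u huP) (hMlt s (hTM hs)))]
    cases hh : uMask.testBit (u ^^^ s)
    · rfl
    · have := (hcos s hs).mp hh
      rw [h] at this
      exact absurd this (by decide)
  · apply hu.1
    intro s hs
    exact (hcos s hs).mpr h

end Pool.Agent.Results.MP_17ab9e_co.NonNormalPSMinus
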